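import Pool.Agent.W845.PM.Base

/-!
# PM-CUT: robust connectivity of the perturbed graph
-/

set_option autoImplicit false
open scoped Classical
open Filter Topology

namespace Pool.Agent.W369.PM.Ct
open Pool.Agent.W845.PM

noncomputable section

/-- neighbourhood outside `S` -/
def nb {n : ℕ} (H : SimpleGraph (Fin n)) (S : Finset (Fin n)) (x : Fin n) : Finset (Fin n) :=
  H.neighborFinset x \ S

theorem mem_nb {n : ℕ} (H : SimpleGraph (Fin n)) (S : Finset (Fin n)) (x y : Fin n) :
    y ∈ nb H S x ↔ H.Adj x y ∧ y ∉ S := by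
  unfold nb
  rw [Finset.mem_sdiff, SimpleGraph.mem_neighborFinset]

/-- no `H`-edge between `X` and the complement of `S ∪ X` -/
def Closed {n : ℕ} (H : SimpleGraph (Fin n)) (S X : Finset (Fin n)) : Prop :=
  Disjoint S X ∧ ∀ x ∈ X, ∀ y ∈ (S ∪ X)ᶜ, ¬ H.Adj x y

theorem closed_adj {n : ℕ} {H : SimpleGraph (Fin n)} {S X : Finset (Fin n)} (h : Closed H S X)
    {x y : Fin n} (hy : y ∉ S) (hx : x ∈ X) (hxy : H.Adj x y) : y ∈ X := by
  by_contra hyX
  refine h.2 x hx y ?_ hxy
  rw [Finset.mem_compl, Finset.mem_union]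
  rintro (h1 | h1)
  · exact hy h1
  · exact hyX h1

theorem card_closed {n : ℕ} (H : SimpleGraph (Fin n)) (S : Finset (Fin n)) (α : ℝ) (hα : 0 < α)
    (hn : 0 < n) (hd : ∀ x, α / 2 * n ≤ ((nb H S x).card : ℝ)) :
    (Finset.univ.filter (fun X : Finset (Fin n) => Closed H S X)).card ≤ 2 ^ ⌈2 / α⌉₊ := by
  have hnR : (0 : ℝ) < n := by exact_mod_cast hn
  -- maximal set with disjoint neighbourhoods
  have hne : (Finset.univ.filter (fun T : Finset (Fin n) => (∀ t ∈ T, t ∉ S) ∧
      ∀ t ∈ T, ∀ t' ∈ T, t ≠ t' → Disjoint (nb H S t) (nb H S t'))).Nonempty := by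
    refine ⟨∅, ?_⟩
    rw [Finset.mem_filter]
    exact ⟨Finset.mem_univ _, by simp⟩
  obtain ⟨T, hT, hmax⟩ := Finset.exists_max_image _ Finset.card hne
  rw [Finset.mem_filter] at hT
  have hTS := hT.2.1
  have hTd := hT.2.2
  have hTc : T.card ≤ ⌈2 / α⌉₊ := by
    have h1 : (T.biUnion (nb H S)).card = ∑ t ∈ T, (nb H S t).card := by
      rw [Finset.card_biUnion]
      intro t ht t' ht' hne'
      exact hTd t ht t' ht' hne'
    have h2 : (T.biUnion (nb H S)).card ≤ n := by
      have := Finset.card_le_univ (T.biUnion (nb H S))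
      rwa [Fintype.card_fin] at this
    have h3 : (T.card : ℝ) * (α / 2 * n) ≤ n := by
      calc (T.card : ℝ) * (α / 2 * n) = ∑ t ∈ T, α / 2 * n := by
            rw [Finset.sum_const, nsmul_eq_mul]
        _ ≤ ∑ t ∈ T, ((nb H S t).card : ℝ) := Finset.sum_le_sum fun t _ => hd t
        _ = ((∑ t ∈ T, (nb H S t).card : ℕ) : ℝ) := by push_cast; rfl
        _ ≤ n := by
            rw [← h1]
            exact_mod_cast h2
    have h4 : (T.card : ℝ) ≤ 2 / α := by
      rw [le_div_iff₀ hα]
      have h5 : (T.card : ℝ) * (α / 2 * n) = (T.card * α / 2) * n := by ring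
      rw [h5] at h3
      have h6 : (T.card : ℝ) * α / 2 ≤ 1 := by
        by_contra hcon
        push Not at hcon
        nlinarith
      linarith
    exact_mod_cast h4.trans (Nat.le_ceil _)
  have hmeet : ∀ x : Fin n, x ∉ S → ∃ t ∈ T, ∃ z, z ∈ nb H S x ∧ z ∈ nb H S t := by
    intro x hxS
    by_cases hxT : x ∈ T
    · have h1 : 0 < (nb H S x).card := by
        have h2 := hd x
        have h3 : (0 : ℝ) < α / 2 * n := by positivity
        have h4 : (0 : ℝ) < ((nb H S x).card : ℝ) := lt_of_lt_of_le h3 h2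
        exact_mod_cast h4
      obtain ⟨z, hz⟩ := Finset.card_pos.1 h1
      exact ⟨x, hxT, z, hz, hz⟩
    · by_contra hcon
      push Not at hcon
      have h1 : insert x T ∈ Finset.univ.filter (fun T : Finset (Fin n) => (∀ t ∈ T, t ∉ S) ∧
          ∀ t ∈ T, ∀ t' ∈ T, t ≠ t' → Disjoint (nb H S t) (nb H S t')) := by
        rw [Finset.mem_filter]
        refine ⟨Finset.mem_univ _, ?_, ?_⟩
        · intro t ht
          rw [Finset.mem_insert] at ht
          rcases ht with rfl | ht
          · exact hxS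
          · exact hTS t ht
        intro t ht t' ht' hne'
        rw [Finset.mem_insert] at ht ht'
        rcases ht with rfl | ht
        · rcases ht' with rfl | ht'
          · exact absurd rfl hne'
          · rw [Finset.disjoint_left]
            intro z hz hz'
            exact hcon t' ht' z hz hz'
        · rcases ht' with rfl | ht'
          · rw [Finset.disjoint_left]
            intro z hz hz'
            exact hcon t ht z hz' hz
          · exact hTd t ht t' ht' hne'
      have h2 := hmax _ h1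
      rw [Finset.card_insert_of_notMem hxT] at h2
      omega
  -- `X` is determined by `X ∩ T`
  calc (Finset.univ.filter (fun X : Finset (Fin n) => Closed H S X)).card
      ≤ (T.powerset).card := by
        refine Finset.card_le_card_of_injOn (fun X => X ∩ T) ?_ ?_
        · intro X _
          rw [Finset.mem_coe, Finset.mem_powerset]
          exact Finset.inter_subset_right
        · intro X hX X' hX' heq
          have hXc : Closed H S X := (Finset.mem_filter.1 (Finset.mem_coe.1 hX)).2
          have hXc' : Closed H S X' := (Finset.mem_filter.1 (Finset.mem_coe.1 hX')).2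
          have key : ∀ Y Y' : Finset (Fin n), Closed H S Y → Closed H S Y' → Y ∩ T = Y' ∩ T →
              ∀ x ∈ Y, x ∈ Y' := by
            intro Y Y' hY hY' he x hx
            have hxS : x ∉ S := fun h => Finset.disjoint_left.1 hY.1 h hx
            obtain ⟨t, ht, z, hz1, hz2⟩ := hmeet x hxS
            rw [mem_nb] at hz1 hz2
            have hzY : z ∈ Y := closed_adj hY hz1.2 hx hz1.1
            have htY : t ∈ Y := closed_adj hY (hTS t ht) hzY hz2.1.symm
            have htY' : t ∈ Y' := by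
              have : t ∈ Y' ∩ T := by
                rw [← he]
                exact Finset.mem_inter.2 ⟨htY, ht⟩
              exact (Finset.mem_inter.1 this).1
            have hzY' : z ∈ Y' := closed_adj hY' hz2.2 htY' hz2.1
            exact closed_adj hY' hxS hzY' hz1.1.symm
          ext x
          exact ⟨key X X' hXc hXc' heq x, key X' X hXc' hXc heq.symm x⟩
    _ = 2 ^ T.card := Finset.card_powerset T
    _ ≤ 2 ^ ⌈2 / α⌉₊ := Nat.pow_le_pow_right (by norm_num) hTc

theorem card_small (n K : ℕ) :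
    ((Finset.univ.filter (fun S : Finset (Fin n) => S.card ≤ K)).card : ℝ) ≤
      (K + 1) * ((n : ℝ) + 1) ^ K := by
  have h1 : (Finset.univ.filter (fun S : Finset (Fin n) => S.card ≤ K)) ⊆
      (Finset.range (K + 1)).biUnion (fun i => Finset.powersetCard i (Finset.univ : Finset (Fin n))) := by
    intro S hS
    rw [Finset.mem_filter] at hS
    rw [Finset.mem_biUnion]
    refine ⟨S.card, Finset.mem_range.2 (by omega), ?_⟩
    rw [Finset.mem_powersetCard]
    exact ⟨Finset.subset_univ _, rfl⟩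
  have h2 := (Finset.card_le_card h1).trans Finset.card_biUnion_le
  have h3 : ∑ i ∈ Finset.range (K + 1), (Finset.powersetCard i (Finset.univ : Finset (Fin n))).card ≤
      (K + 1) * (n + 1) ^ K := by
    calc ∑ i ∈ Finset.range (K + 1), (Finset.powersetCard i (Finset.univ : Finset (Fin n))).card
        ≤ ∑ i ∈ Finset.range (K + 1), (n + 1) ^ K := by
          refine Finset.sum_le_sum fun i hi => ?_
          rw [Finset.card_powersetCard, Finset.card_univ, Fintype.card_fin]
          calc n.choose i ≤ n ^ i := Nat.choose_le_pow n i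
            _ ≤ (n + 1) ^ i := Nat.pow_le_pow_left (by omega) i
            _ ≤ (n + 1) ^ K := Nat.pow_le_pow_right (by omega) (by
                have := Finset.mem_range.1 hi
                omega)
      _ = (K + 1) * (n + 1) ^ K := by
          rw [Finset.sum_const, Finset.card_range, smul_eq_mul]
  have h4 := h2.trans h3
  exact_mod_cast h4

theorem tend0 (K r : ℕ) (b : ℝ) (hb : 0 < b) :
    Tendsto (fun n : ℕ => ((K : ℝ) + 1) * ((n : ℝ) + 1) ^ K * 2 ^ r * Real.exp (-(b * n))) atTop (𝓝 0) := by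
  have h1 : Tendsto (fun x : ℝ => x ^ K * Real.exp (-(b * x))) atTop (𝓝 0) := by
    have h2 := tendsto_rpow_mul_exp_neg_mul_atTop_nhds_zero (K : ℝ) b hb
    refine h2.congr fun x => ?_
    rw [Real.rpow_natCast, neg_mul]
  have h2 : Tendsto (fun n : ℕ => (n : ℝ) + 1) atTop atTop :=
    tendsto_atTop_add_const_right _ 1 tendsto_natCast_atTop_atTop
  have h3 := (h1.comp h2).const_mul (((K : ℝ) + 1) * 2 ^ r * Real.exp b)
  rw [mul_zero] at h3
  refine h3.congr fun n => ?_
  simp only [Function.comp]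
  have h4 : Real.exp (-(b * n)) = Real.exp b * Real.exp (-(b * ((n : ℝ) + 1))) := by
    rw [← Real.exp_add]
    congr 1
    ring
  rw [h4]
  ring

/-- the pairs that matter -/
def Bad {n : ℕ} (H : SimpleGraph (Fin n)) (k : ℕ) (S : Finset (Fin n)) : Finset (Finset (Fin n)) :=
  Finset.univ.filter (fun X : Finset (Fin n) => Closed H S X ∧ k < X.card ∧ k < ((S ∪ X)ᶜ).card)

theorem cut : S_EXT → S_ONE → S_EDGE → S_CUT := by
  intro _ _ hedge α κ β δ K hα hκ hβ hδ
  have hb : 0 < β * κ ^ 2 := by positivity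
  have h1 := (tend0 K ⌈2 / α⌉₊ (β * κ ^ 2) hb).eventually (eventually_le_nhds hδ)
  have h2 : ∀ᶠ n : ℕ in atTop, 2 * (K : ℝ) / α ≤ n :=
    tendsto_natCast_atTop_atTop.eventually (eventually_ge_atTop _)
  obtain ⟨N, hN⟩ := eventually_atTop.1 ((h1.and h2).and (eventually_ge_atTop 1))
  refine ⟨N, ?_⟩
  intro n H p k hn hdeg hp hp1 hk
  obtain ⟨⟨hn1, hn2⟩, hn3⟩ := hN n hn
  have hnR : (0 : ℝ) < n := by exact_mod_cast hn3
  have hp0 : 0 ≤ p := le_trans (by positivity) hp
  have hnbc : ∀ S : Finset (Fin n), S.card ≤ K → ∀ x, α / 2 * n ≤ ((nb H S x).card : ℝ) := by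
    intro S hS x
    have h3 : (H.neighborFinset x).card ≤ (nb H S x).card + S.card := by
      have h4 := Finset.card_le_card (Finset.subset_union_left (s₁ := H.neighborFinset x) (s₂ := S))
      have h5 : H.neighborFinset x ∪ S = nb H S x ∪ S := by
        unfold nb
        rw [Finset.sdiff_union_self_eq_union]
      rw [h5] at h4
      exact h4.trans (Finset.card_union_le _ _)
    have h4 : H.minDegree ≤ (H.neighborFinset x).card := H.minDegree_le_degree x
    have h5 : ((H.minDegree : ℕ) : ℝ) ≤ ((nb H S x).card : ℝ) + K := by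
      have : H.minDegree ≤ (nb H S x).card + K := by omega
      exact_mod_cast this
    rw [div_le_iff₀ hα] at hn2
    linarith
  have hterm : ∀ S X : Finset (Fin n), X ∈ Bad H k S →
      EG n p (fun R => if ∀ x ∈ X, ∀ y ∈ (S ∪ X)ᶜ, ¬ R.Adj x y then (1 : ℝ) else 0) ≤
        Real.exp (-(β * κ ^ 2 * n)) := by
    intro S X hX
    unfold Bad at hX
    rw [Finset.mem_filter] at hX
    have hdj : Disjoint X (S ∪ X)ᶜ := by
      rw [Finset.disjoint_left]
      intro x hx hx'
      rw [Finset.mem_compl, Finset.mem_union] at hx'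
      exact hx' (Or.inr hx)
    refine (hedge n p X (S ∪ X)ᶜ hp0 hp1 hdj).trans ?_
    have h3 : (1 - p) ^ (X.card * ((S ∪ X)ᶜ).card) ≤ Real.exp (-p) ^ (X.card * ((S ∪ X)ᶜ).card) := by
      refine pow_le_pow_left₀ (by linarith) ?_ _
      have := Real.add_one_le_exp (-p)
      linarith
    refine h3.trans ?_
    rw [← Real.exp_nat_mul, Real.exp_le_exp]
    have h4 : κ * n ≤ (X.card : ℝ) := by
      have : (k : ℝ) ≤ X.card := by exact_mod_cast hX.2.2.1.le
      linarith
    have h5 : κ * n ≤ (((S ∪ X)ᶜ).card : ℝ) := by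
      have : (k : ℝ) ≤ ((S ∪ X)ᶜ).card := by exact_mod_cast hX.2.2.2.le
      linarith
    have h6 : (κ * n) * (κ * n) ≤ (X.card : ℝ) * (((S ∪ X)ᶜ).card : ℝ) :=
      mul_le_mul h4 h5 (by positivity) (by positivity)
    have h7 : β * κ ^ 2 * n = (κ * n) * (κ * n) * (β / n) := by
      field_simp
    push_cast
    have h8 : (κ * n) * (κ * n) * (β / n) ≤ (X.card : ℝ) * (((S ∪ X)ᶜ).card : ℝ) * p :=
      mul_le_mul h6 hp (by positivity) (by positivity)
    linarith
  have hind : ∀ R : SimpleGraph (Fin n), (if Cut K k (H ⊔ R) then (0 : ℝ) else 1) ≤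
      ∑ S ∈ Finset.univ.filter (fun S : Finset (Fin n) => S.card ≤ K), ∑ X ∈ Bad H k S,
        (if ∀ x ∈ X, ∀ y ∈ (S ∪ X)ᶜ, ¬ R.Adj x y then (1 : ℝ) else 0) := by
    intro R
    have hnn : ∀ (S X : Finset (Fin n)), (0 : ℝ) ≤
        (if ∀ x ∈ X, ∀ y ∈ (S ∪ X)ᶜ, ¬ R.Adj x y then (1 : ℝ) else 0) := by
      intro S X
      split_ifs <;> norm_num
    by_cases hcut : Cut K k (H ⊔ R)
    · rw [if_pos hcut]
      exact Finset.sum_nonneg fun S _ => Finset.sum_nonneg fun X _ => hnn S X
    · rw [if_neg hcut]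
      unfold Cut at hcut
      push Not at hcut
      obtain ⟨S, X, hS, hdj, hX1, hX2, hno⟩ := hcut
      have hSm : S ∈ Finset.univ.filter (fun S : Finset (Fin n) => S.card ≤ K) := by
        rw [Finset.mem_filter]
        exact ⟨Finset.mem_univ _, hS⟩
      have hXm : X ∈ Bad H k S := by
        unfold Bad
        rw [Finset.mem_filter]
        exact ⟨Finset.mem_univ _, ⟨hdj, fun x hx y hy h => hno x hx y hy (Or.inl h)⟩, hX1, hX2⟩
      refine le_trans ?_ (Finset.single_le_sum (fun S _ => Finset.sum_nonneg fun X _ => hnn S X) hSm)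
      refine le_trans ?_ (Finset.single_le_sum (fun X _ => hnn S X) hXm)
      rw [if_pos]
      intro x hx y hy h
      exact hno x hx y hy (Or.inr h)
  refine (EG_mono hp0 hp1 hind).trans ?_
  rw [EG_sum]
  have h3 : ∀ S ∈ Finset.univ.filter (fun S : Finset (Fin n) => S.card ≤ K),
      EG n p (fun R => ∑ X ∈ Bad H k S,
        (if ∀ x ∈ X, ∀ y ∈ (S ∪ X)ᶜ, ¬ R.Adj x y then (1 : ℝ) else 0)) ≤
      2 ^ ⌈2 / α⌉₊ * Real.exp (-(β * κ ^ 2 * n)) := by
    intro S hS
    rw [Finset.mem_filter] at hS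
    rw [EG_sum]
    refine (Finset.sum_le_sum fun X hX => hterm S X hX).trans ?_
    rw [Finset.sum_const, nsmul_eq_mul]
    refine mul_le_mul_of_nonneg_right ?_ (Real.exp_pos _).le
    have h4 := card_closed H S α hα hn3 (hnbc S hS.2)
    have h5 : (Bad H k S).card ≤ 2 ^ ⌈2 / α⌉₊ := by
      refine le_trans (Finset.card_le_card ?_) h4
      intro X hX
      unfold Bad at hX
      rw [Finset.mem_filter] at hX ⊢
      exact ⟨hX.1, hX.2.1⟩
    exact_mod_cast h5
  refine (Finset.sum_le_sum h3).trans ?_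
  rw [Finset.sum_const, nsmul_eq_mul]
  refine le_trans ?_ hn1
  have h4 := card_small n K
  calc ((Finset.univ.filter (fun S : Finset (Fin n) => S.card ≤ K)).card : ℝ) *
        (2 ^ ⌈2 / α⌉₊ * Real.exp (-(β * κ ^ 2 * n)))
      ≤ ((K + 1) * ((n : ℝ) + 1) ^ K) * (2 ^ ⌈2 / α⌉₊ * Real.exp (-(β * κ ^ 2 * n))) :=
        mul_le_mul_of_nonneg_right h4 (by positivity)
    _ = ((K : ℝ) + 1) * ((n : ℝ) + 1) ^ K * 2 ^ ⌈2 / α⌉₊ * Real.exp (-(β * κ ^ 2 * n)) := by ring

end

end Pool.Agent.W369.PM.Ct
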