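import Pool.Agent.W845.PM.Base

/-!
# PM-DET1: the Tutte argument
-/

set_option autoImplicit false
open scoped Classical

namespace Pool.Agent.W369.PM.Dt
open Pool.Agent.W845.PM

noncomputable section

/-- Tutte's theorem in terms of finsets of vertices -/
theorem tutte_comps {n : ℕ} (G : SimpleGraph (Fin n)) (h : ¬ PMa G) :
    ∃ (S : Finset (Fin n)) (𝒞 : Finset (Finset (Fin n))), (∀ C ∈ 𝒞, C.Nonempty) ∧
      (∀ C ∈ 𝒞, ∀ C' ∈ 𝒞, ∀ x ∈ C, x ∈ C' → C = C') ∧ (∀ x, x ∉ S → ∃ C ∈ 𝒞, x ∈ C) ∧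
      (∀ C ∈ 𝒞, ∀ x ∈ C, x ∉ S) ∧ (∀ C ∈ 𝒞, ∀ x ∈ C, ∀ y, y ∉ S → G.Adj x y → y ∈ C) ∧
      S.card < (𝒞.filter (fun C => Odd C.card)).card := by
  unfold PMa at h
  rw [SimpleGraph.tutte] at h
  push Not at h
  obtain ⟨u, hu⟩ := h
  unfold SimpleGraph.IsTutteViolator at hu
  obtain ⟨G', hG'⟩ : ∃ G', G' = ((⊤ : G.Subgraph).deleteVerts u).coe := ⟨_, rfl⟩
  rw [← hG'] at hu
  have hadj : ∀ (x y : ((⊤ : G.Subgraph).deleteVerts u).verts), G.Adj x.1 y.1 → G'.Adj x y := by
    intro x y hxy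
    rw [hG', SimpleGraph.Subgraph.coe_adj, SimpleGraph.Subgraph.deleteVerts_adj]
    have hx : x.1 ∈ (⊤ : G.Subgraph).verts \ u := x.2
    have hy : y.1 ∈ (⊤ : G.Subgraph).verts \ u := y.2
    exact ⟨trivial, hx.2, trivial, hy.2, hxy⟩
  have hmemv : ∀ x : Fin n, x ∉ u → x ∈ ((⊤ : G.Subgraph).deleteVerts u).verts := by
    intro x hx
    rw [SimpleGraph.Subgraph.deleteVerts_verts]
    exact ⟨trivial, hx⟩
  have hvmem : ∀ x : ((⊤ : G.Subgraph).deleteVerts u).verts, x.1 ∉ u := by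
    intro x
    have hx : x.1 ∈ (⊤ : G.Subgraph).verts \ u := x.2
    exact hx.2
  let F : G'.ConnectedComponent → Finset (Fin n) := fun c => (Set.toFinite (Subtype.val '' c.supp)).toFinset
  have hF : ∀ c x, x ∈ F c ↔ ∃ y ∈ c.supp, y.1 = x := by
    intro c x
    show x ∈ (Set.toFinite (Subtype.val '' c.supp)).toFinset ↔ _
    rw [Set.Finite.mem_toFinset]
    rfl
  have hFi : ∀ c c' x, x ∈ F c → x ∈ F c' → c = c' := by
    intro c c' x hx hx'
    obtain ⟨y, hy, hyx⟩ := (hF c x).1 hx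
    obtain ⟨y', hy', hyx'⟩ := (hF c' x).1 hx'
    have hyy : y = y' := Subtype.ext (hyx.trans hyx'.symm)
    rw [SimpleGraph.ConnectedComponent.mem_supp_iff] at hy hy'
    rw [← hy, ← hy', hyy]
  have hFne : ∀ c, (F c).Nonempty := by
    intro c
    obtain ⟨y, hy⟩ := c.nonempty_supp
    exact ⟨y.1, (hF c y.1).2 ⟨y, hy, rfl⟩⟩
  have hFinj : Function.Injective F := by
    intro c c' hcc
    obtain ⟨x, hx⟩ := hFne c
    exact hFi c c' x hx (hcc ▸ hx)
  have hFcard : ∀ c, (F c).card = c.supp.ncard := by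
    intro c
    show ((Set.toFinite (Subtype.val '' c.supp)).toFinset).card = _
    rw [← Set.ncard_eq_toFinset_card, Set.ncard_image_of_injective _ Subtype.val_injective]
  refine ⟨(Set.toFinite u).toFinset, (Set.toFinite (Set.range F)).toFinset, ?_, ?_, ?_, ?_, ?_, ?_⟩
  · intro C hC
    rw [Set.Finite.mem_toFinset] at hC
    obtain ⟨c, rfl⟩ := hC
    exact hFne c
  · intro C hC C' hC' x hx hx'
    rw [Set.Finite.mem_toFinset] at hC hC'
    obtain ⟨c, rfl⟩ := hC
    obtain ⟨c', rfl⟩ := hC'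
    rw [hFi c c' x hx hx']
  · intro x hx
    rw [Set.Finite.mem_toFinset] at hx
    refine ⟨F (G'.connectedComponentMk ⟨x, hmemv x hx⟩), ?_, ?_⟩
    · rw [Set.Finite.mem_toFinset]
      exact ⟨_, rfl⟩
    · rw [hF]
      exact ⟨⟨x, hmemv x hx⟩, rfl, rfl⟩
  · intro C hC x hx
    rw [Set.Finite.mem_toFinset] at hC ⊢
    obtain ⟨c, rfl⟩ := hC
    obtain ⟨y, _, rfl⟩ := (hF c x).1 hx
    exact hvmem y
  · intro C hC x hx y hy hxy
    rw [Set.Finite.mem_toFinset] at hC hy
    obtain ⟨c, rfl⟩ := hC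
    obtain ⟨z, hz, rfl⟩ := (hF c x).1 hx
    rw [hF]
    refine ⟨⟨y, hmemv y hy⟩, ?_, rfl⟩
    rw [SimpleGraph.ConnectedComponent.mem_supp_iff] at hz ⊢
    rw [← hz]
    exact (SimpleGraph.ConnectedComponent.connectedComponentMk_eq_of_adj (hadj z ⟨y, hmemv y hy⟩ hxy)).symm
  · have h1 : ((Set.toFinite u).toFinset).card = u.ncard := (Set.ncard_eq_toFinset_card u _).symm
    have h2 : (((Set.toFinite (Set.range F)).toFinset).filter (fun C => Odd C.card)).card =
        G'.oddComponents.ncard := by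
      rw [← Set.ncard_image_of_injective G'.oddComponents hFinj, Set.ncard_eq_toFinset_card _ (Set.toFinite _)]
      congr 1
      ext C
      rw [Finset.mem_filter, Set.Finite.mem_toFinset, Set.Finite.mem_toFinset]
      constructor
      · rintro ⟨⟨c, rfl⟩, ho⟩
        rw [hFcard] at ho
        exact ⟨c, ho, rfl⟩
      · rintro ⟨c, hc, rfl⟩
        refine ⟨⟨c, rfl⟩, ?_⟩
        rw [hFcard]
        exact hc
    rw [h1, h2]
    exact hu

theorem sum_card {n : ℕ} {S : Finset (Fin n)} {𝒞 : Finset (Finset (Fin n))}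
    (hdis : ∀ C ∈ 𝒞, ∀ C' ∈ 𝒞, ∀ x ∈ C, x ∈ C' → C = C') (hcov : ∀ x, x ∉ S → ∃ C ∈ 𝒞, x ∈ C)
    (hS : ∀ C ∈ 𝒞, ∀ x ∈ C, x ∉ S) : ∑ C ∈ 𝒞, C.card + S.card = n := by
  have h1 : 𝒞.biUnion id = Sᶜ := by
    ext x
    rw [Finset.mem_biUnion, Finset.mem_compl]
    constructor
    · rintro ⟨C, hC, hx⟩
      exact hS C hC x hx
    · intro hx
      obtain ⟨C, hC, hxC⟩ := hcov x hx
      exact ⟨C, hC, hxC⟩
  have h2 : (𝒞.biUnion id).card = ∑ C ∈ 𝒞, C.card := by
    rw [Finset.card_biUnion]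
    · rfl
    · intro C hC C' hC' hne
      show Disjoint C C'
      rw [Finset.disjoint_left]
      intro x hx hx'
      exact hne (hdis C hC C' hC' x hx hx')
  rw [← h2, h1, Finset.card_compl, Fintype.card_fin]
  have := Finset.card_le_univ S
  rw [Fintype.card_fin] at this
  omega

/-- existence of a maximum matching -/
theorem exists_max {V : Type} [Fintype V] (G : SimpleGraph V) :
    ∃ M : Finset (Sym2 V), IsM G M ∧ M.card = nu G := by
  have hne : (Finset.univ.filter (fun M : Finset (Sym2 V) => IsM G M)).Nonempty := by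
    refine ⟨∅, ?_⟩
    rw [Finset.mem_filter]
    exact ⟨Finset.mem_univ _, by simp [IsM]⟩
  obtain ⟨M, hM, hMe⟩ := Finset.exists_mem_eq_sup _ hne Finset.card
  rw [Finset.mem_filter] at hM
  exact ⟨M, hM.2, hMe.symm⟩

/-- the uncovered vertices -/
def unc {V : Type} [Fintype V] (M : Finset (Sym2 V)) : Finset V :=
  Finset.univ.filter (fun x => ∀ f ∈ M, x ∉ f)

theorem mem_unc {V : Type} [Fintype V] (M : Finset (Sym2 V)) (x : V) :
    x ∈ unc M ↔ ∀ f ∈ M, x ∉ f := by
  unfold unc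
  rw [Finset.mem_filter]
  exact ⟨fun h => h.2, fun h => ⟨Finset.mem_univ _, h⟩⟩

theorem card_unc {V : Type} [Fintype V] {G : SimpleGraph V} {M : Finset (Sym2 V)} (hM : IsM G M) :
    (unc M).card + 2 * M.card ≤ Fintype.card V := by
  have h1 : ((M.biUnion fun f => Finset.univ.filter (fun x => x ∈ f))).card = 2 * M.card := by
    rw [Finset.card_biUnion]
    · rw [Finset.sum_const_nat (m := 2), mul_comm]
      intro f hf
      have hf' := hM.1 f hf
      induction f using Sym2.ind with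
      | _ x y =>
        rw [SimpleGraph.mem_edgeSet] at hf'
        have : Finset.univ.filter (fun z => z ∈ s(x, y)) = {x, y} := by
          ext z
          simp [Sym2.mem_iff]
        rw [this, Finset.card_pair hf'.ne]
    · intro f hf f' hf' hne
      show Disjoint (Finset.univ.filter (fun x => x ∈ f)) (Finset.univ.filter (fun x => x ∈ f'))
      rw [Finset.disjoint_left]
      intro x hx hx'
      rw [Finset.mem_filter] at hx hx'
      exact hM.2 f hf f' hf' hne x hx.2 hx'.2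
  have h2 : Disjoint (unc M) (M.biUnion fun f => Finset.univ.filter (fun x => x ∈ f)) := by
    rw [Finset.disjoint_left]
    intro x hx hx'
    rw [Finset.mem_biUnion] at hx'
    obtain ⟨f, hf, hxf⟩ := hx'
    exact (Finset.mem_filter.1 hx).2 f hf (Finset.mem_filter.1 hxf).2
  have h3 := Finset.card_le_univ (unc M ∪ M.biUnion fun f => Finset.univ.filter (fun x => x ∈ f))
  rw [Finset.card_union_of_disjoint h2, h1] at h3
  exact h3

/-- a set which is matched inside itself is even -/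
theorem even_of_matched {V : Type} [Fintype V] {G : SimpleGraph V} {M : Finset (Sym2 V)} (hM : IsM G M)
    (O : Finset V) (h : ∀ x ∈ O, ∃ y ∈ O, s(x, y) ∈ M) : Even O.card := by
  have hex : ∀ x : V, ∃ y, x ∈ O → y ∈ O ∧ s(x, y) ∈ M := by
    intro x
    by_cases hx : x ∈ O
    · obtain ⟨y, hy, hxy⟩ := h x hx
      exact ⟨y, fun _ => ⟨hy, hxy⟩⟩
    · exact ⟨x, fun hh => absurd hh hx⟩
  choose g hg using hex
  have huniq : ∀ x y z, s(x, y) ∈ M → s(x, z) ∈ M → y = z := by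
    intro x y z h1 h2
    by_contra hne
    have h3 : s(x, y) ≠ s(x, z) := by
      intro heq
      exact hne (Sym2.congr_right.1 heq)
    exact hM.2 _ h1 _ h2 h3 x (Sym2.mem_mk_left x y) (Sym2.mem_mk_left x z)
  have h1 : ∑ x ∈ O, (1 : ZMod 2) = 0 := by
    refine Finset.sum_involution (fun x _ => g x) ?_ ?_ ?_ ?_
    · intro x _
      exact CharTwo.add_self_eq_zero 1
    · intro x hx _ heq
      have h2 := (hg x hx).2
      rw [heq] at h2
      have h3 := hM.1 _ h2
      rw [SimpleGraph.mem_edgeSet] at h3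
      exact h3.ne rfl
    · intro x hx
      exact (hg x hx).1
    · intro x hx
      have h2 := hg x hx
      have h3 := hg (g x) h2.1
      refine (huniq (g x) x (g (g x)) ?_ h3.2).symm
      rw [Sym2.eq_swap]
      exact h2.2
  rw [Finset.sum_const, nsmul_eq_mul, mul_one] at h1
  exact (ZMod.natCast_eq_zero_iff_even).1 h1

/-- case 1: a small component -/
theorem case1 {n a k : ℕ} {G : SimpleGraph (Fin n)} {R : SimpleGraph (Fin n)} (hRG : R ≤ G)
    {S : Finset (Fin n)} {𝒞 : Finset (Finset (Fin n))} (hne : ∀ C ∈ 𝒞, C.Nonempty)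
    (hdis : ∀ C ∈ 𝒞, ∀ C' ∈ 𝒞, ∀ x ∈ C, x ∈ C' → C = C')
    (hS : ∀ C ∈ 𝒞, ∀ x ∈ C, x ∉ S) (hcl : ∀ C ∈ 𝒞, ∀ x ∈ C, ∀ y, y ∉ S → G.Adj x y → y ∈ C)
    (hodd : S.card < (𝒞.filter (fun C => Odd C.card)).card) (han : a ≤ n)
    {C : Finset (Fin n)} (hC : C ∈ 𝒞) (hCk : C.card ≤ k) {v : Fin n} (hv : v ∈ C)
    (e : Fin (n - a) ↪ Fin n) (he : ∀ x, x ∉ Set.range e → G.Adj v x)
    (hdfc : dfc (R.comap e) + 2 * k ≤ a) : False := by
  obtain ⟨M, hM, hMc⟩ := exists_max (R.comap e)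
  have hu := card_unc hM
  rw [Fintype.card_fin] at hu
  -- the uncovered set is small
  have hu2 : (unc M).card + 2 * k ≤ a := by
    unfold dfc at hdfc
    rw [Fintype.card_fin, ← hMc, Nat.cast_sub han] at hdfc
    have h1 : ((unc M).card : ℝ) + 2 * (M.card : ℝ) ≤ (n : ℝ) - a := by
      rw [← Nat.cast_sub han]
      exact_mod_cast hu
    have h2 : ((unc M).card : ℝ) + 2 * k ≤ a := by linarith
    exact_mod_cast h2
  obtain ⟨B, hB⟩ : ∃ B : Finset (Fin n), B = Finset.univ.map e := ⟨_, rfl⟩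
  have hBm : ∀ x, x ∈ B ↔ ∃ y, e y = x := by
    intro x
    rw [hB, Finset.mem_map]
    simp
  have hBc : B.card = n - a := by
    rw [hB, Finset.card_map, Finset.card_univ, Fintype.card_fin]
  have hAS : Bᶜ \ S ⊆ C := by
    intro x hx
    rw [Finset.mem_sdiff, Finset.mem_compl, hBm] at hx
    exact hcl C hC v hv x hx.2 (he x hx.1)
  have hASc : (Bᶜ \ S).card ≤ k := (Finset.card_le_card hAS).trans hCk
  -- odd components meeting the complement of B
  obtain ⟨𝒪, h𝒪⟩ : ∃ 𝒪, 𝒪 = 𝒞.filter (fun C => Odd C.card) := ⟨_, rfl⟩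
  rw [← h𝒪] at hodd
  have h𝒪m : ∀ O, O ∈ 𝒪 → O ∈ 𝒞 ∧ Odd O.card := by
    intro O hO
    rw [h𝒪, Finset.mem_filter] at hO
    exact hO
  have h1 : (𝒪.filter (fun O => ¬ O ⊆ B)).card ≤ (Bᶜ \ S).card := by
    have hex : ∀ O : Finset (Fin n), ∃ x : Fin n, ¬ O ⊆ B → x ∈ O ∧ x ∉ B := by
      intro O
      by_cases h : O ⊆ B
      · exact ⟨v, fun h' => absurd h h'⟩
      · obtain ⟨x, hx, hxB⟩ := Finset.not_subset.1 h
        exact ⟨x, fun _ => ⟨hx, hxB⟩⟩
    choose f hf using hex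
    refine Finset.card_le_card_of_injOn f ?_ ?_
    · intro O hO
      have hO' := Finset.mem_filter.1 (Finset.mem_coe.1 hO)
      have h2 := hf O hO'.2
      rw [Finset.mem_coe, Finset.mem_sdiff, Finset.mem_compl]
      exact ⟨h2.2, hS O (h𝒪m O hO'.1).1 _ h2.1⟩
    · intro O hO O' hO' hff
      have hO1 := Finset.mem_filter.1 (Finset.mem_coe.1 hO)
      have hO2 := Finset.mem_filter.1 (Finset.mem_coe.1 hO')
      refine hdis O (h𝒪m O hO1.1).1 O' (h𝒪m O' hO2.1).1 (f O) (hf O hO1.2).1 ?_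
      rw [hff]
      exact (hf O' hO2.2).1
  -- every odd component inside B has an uncovered vertex or an edge of the matching to S
  have h2 : ∀ O ∈ 𝒪, O ⊆ B → ∃ x : Fin (n - a), e x ∈ O ∧
      (x ∈ unc M ∨ ∃ y, s(x, y) ∈ M ∧ e y ∈ S) := by
    intro O hO hOB
    have hOC := h𝒪m O hO
    by_contra hcon
    push Not at hcon
    have hpre : O.card = (Finset.univ.filter (fun x => e x ∈ O)).card := by
      rw [← Finset.card_map e]
      congr 1
      ext x
      rw [Finset.mem_map]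
      constructor
      · intro hx
        obtain ⟨y, rfl⟩ := (hBm x).1 (hOB hx)
        exact ⟨y, by simpa using hx, rfl⟩
      · rintro ⟨y, hy, rfl⟩
        exact (Finset.mem_filter.1 hy).2
    have heven : Even (Finset.univ.filter (fun x => e x ∈ O)).card := by
      refine even_of_matched hM _ ?_
      intro x hx
      rw [Finset.mem_filter] at hx
      have h3 := (hcon x hx.2).1
      have h4 : ∃ f ∈ M, x ∈ f := by
        rw [mem_unc] at h3
        push Not at h3
        exact h3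
      obtain ⟨f, hf, hxf⟩ := h4
      obtain ⟨y, rfl⟩ := Sym2.mem_iff_exists.1 hxf
      refine ⟨y, ?_, hf⟩
      have h5 := (hcon x hx.2).2 y hf
      have h6 := hM.1 _ hf
      rw [SimpleGraph.mem_edgeSet, SimpleGraph.comap_adj] at h6
      rw [Finset.mem_filter]
      exact ⟨Finset.mem_univ _, hcl O hOC.1 (e x) hx.2 (e y) h5 (hRG h6)⟩
    rw [← hpre] at heven
    exact (Nat.not_even_iff_odd.2 hOC.2) heven
  have hnonempty : Nonempty (Fin n) := ⟨v⟩
  obtain ⟨P, hP⟩ : ∃ P, P = (𝒪.filter (fun O => O ⊆ B)).filter (fun O => ∃ x, e x ∈ O ∧ x ∈ unc M) :=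
    ⟨_, rfl⟩
  obtain ⟨Q, hQ⟩ : ∃ Q, Q = (𝒪.filter (fun O => O ⊆ B)).filter (fun O => ¬ ∃ x, e x ∈ O ∧ x ∈ unc M) :=
    ⟨_, rfl⟩
  have hPQ : (𝒪.filter (fun O => O ⊆ B)).card = P.card + Q.card := by
    rw [hP, hQ, Finset.card_filter_add_card_filter_not]
  have hPm : ∀ O ∈ P, O ∈ 𝒞 := by
    intro O hO
    rw [hP, Finset.mem_filter, Finset.mem_filter] at hO
    exact (h𝒪m O hO.1.1).1
  have hQm : ∀ O ∈ Q, O ∈ 𝒞 := by
    intro O hO
    rw [hQ, Finset.mem_filter, Finset.mem_filter] at hO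
    exact (h𝒪m O hO.1.1).1
  have hPc : P.card ≤ (unc M).card := by
    have h3 : ∀ O ∈ P, ∃ z : Fin n, z ∈ O ∧ z ∈ (unc M).map e := by
      intro O hO
      rw [hP, Finset.mem_filter] at hO
      obtain ⟨x, hx, hxu⟩ := hO.2
      exact ⟨e x, hx, Finset.mem_map_of_mem e hxu⟩
    choose! f hf using h3
    rw [← Finset.card_map e]
    refine Finset.card_le_card_of_injOn f ?_ ?_
    · intro O hO
      exact (hf O hO).2
    · intro O hO O' hO' hff
      refine hdis O (hPm O hO) O' (hPm O' hO') (f O) (hf O hO).1 ?_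
      rw [hff]
      exact (hf O' hO').1
  have hQc : Q.card ≤ (S ∩ B).card := by
    have h3 : ∀ O ∈ Q, ∃ z : Fin n, ∃ x y, e x ∈ O ∧ s(x, y) ∈ M ∧ e y ∈ S ∧ e y = z := by
      intro O hO
      rw [hQ, Finset.mem_filter, Finset.mem_filter] at hO
      obtain ⟨x, hx, hxu⟩ := h2 O hO.1.1 hO.1.2
      rcases hxu with hxu | ⟨y, hy, hyS⟩
      · exact absurd ⟨x, hx, hxu⟩ hO.2
      · exact ⟨e y, x, y, hx, hy, hyS, rfl⟩
    choose! f hf using h3
    refine Finset.card_le_card_of_injOn f ?_ ?_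
    · intro O hO
      obtain ⟨x, y, _, _, hyS, hyz⟩ := hf O hO
      rw [Finset.mem_coe, Finset.mem_inter, ← hyz]
      exact ⟨hyS, (hBm _).2 ⟨y, rfl⟩⟩
    · intro O hO O' hO' hff
      obtain ⟨x, y, hxO, hxy, _, hyz⟩ := hf O hO
      obtain ⟨x', y', hxO', hxy', _, hyz'⟩ := hf O' hO'
      have hyy : y = y' := e.injective (by rw [hyz, hyz', hff])
      subst hyy
      have hxx : x = x' := by
        by_contra hne'
        have h4 : s(x, y) ≠ s(x', y) := by
          intro heq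
          exact hne' (Sym2.congr_left.1 heq)
        exact hM.2 _ hxy _ hxy' h4 y (Sym2.mem_mk_right x y) (Sym2.mem_mk_right x' y)
      subst hxx
      exact hdis O (hQm O hO) O' (hQm O' hO') (e x) hxO hxO'
  have hsplit : 𝒪.card = (𝒪.filter (fun O => O ⊆ B)).card + (𝒪.filter (fun O => ¬ O ⊆ B)).card :=
    (Finset.card_filter_add_card_filter_not _).symm
  have hScard : S.card = (S ∩ B).card + (S \ B).card := (Finset.card_inter_add_card_sdiff S B).symm
  have hAcard : a = (Bᶜ \ S).card + (S \ B).card := by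
    have h3 : (Bᶜ).card = a := by
      rw [Finset.card_compl, Fintype.card_fin, hBc]
      omega
    have h4 : (Bᶜ ∩ S).card + (Bᶜ \ S).card = (Bᶜ).card := Finset.card_inter_add_card_sdiff _ _
    have h5 : Bᶜ ∩ S = S \ B := by
      ext x
      simp only [Finset.mem_inter, Finset.mem_compl, Finset.mem_sdiff]
      tauto
    rw [h5, h3] at h4
    omega
  omega

end

theorem det1 : S_DET1 := by
  intro n a k K H R hn han hK hv hcut
  by_contra hno
  obtain ⟨S, 𝒞, hne, hdis, hcov, hS, hcl, hodd⟩ := tutte_comps (H ⊔ R) hno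
  by_cases hsmall : ∃ C ∈ 𝒞, C.card ≤ k
  · obtain ⟨C, hC, hCk⟩ := hsmall
    obtain ⟨v, hvC⟩ := hne C hC
    obtain ⟨e, he, hdfc⟩ := hv v
    exact case1 (G := H ⊔ R) (R := R) le_sup_right hne hdis hS hcl hodd han hC hCk hvC e
      (fun x hx => Or.inl (he x hx)) hdfc
  · push Not at hsmall
    have hsum := sum_card hdis hcov hS
    have h1 : 𝒞.card * (k + 1) ≤ ∑ C ∈ 𝒞, C.card := by
      rw [← smul_eq_mul]
      exact Finset.card_nsmul_le_sum _ _ _ fun C hC => hsmall C hC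
    have h2 : 𝒞.card < K := by
      by_contra hcon
      push Not at hcon
      have := Nat.mul_le_mul_right (k + 1) hcon
      omega
    have h3 : (𝒞.filter (fun C => Odd C.card)).card ≤ 𝒞.card := Finset.card_filter_le _ _
    have h4 : 1 < 𝒞.card := by
      by_cases hS0 : S.card = 0
      · have h5 : Even (𝒞.filter (fun C => Odd C.card)).card := by
          rw [← Nat.not_odd_iff_even, ← Finset.odd_sum_iff_odd_card_odd, Nat.not_odd_iff_even]
          have : ∑ C ∈ 𝒞, C.card = n := by omega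
          rw [this]
          exact hn
        obtain ⟨r, hr⟩ := h5
        omega
      · omega
    obtain ⟨X, hX, Y, hY, hXY⟩ := Finset.one_lt_card.1 h4
    have hdj : Disjoint S X := by
      rw [Finset.disjoint_left]
      intro x hxS hxX
      exact hS X hX x hxX hxS
    have hYsub : Y ⊆ (S ∪ X)ᶜ := by
      intro y hy
      rw [Finset.mem_compl, Finset.mem_union]
      rintro (h5 | h5)
      · exact hS Y hY y hy h5
      · exact hXY (hdis X hX Y hY y h5 hy)
    obtain ⟨x, hx, y, hy, hxy⟩ := hcut S X (by omega) hdj (hsmall X hX)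
      (lt_of_lt_of_le (hsmall Y hY) (Finset.card_le_card hYsub))
    rw [Finset.mem_compl, Finset.mem_union] at hy
    push Not at hy
    exact hy.2 (hcl X hX x hx y hy.1 hxy)

end Pool.Agent.W369.PM.Dt
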