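import Pool.Agent.W845.PM.Base

/-!
# PM-ID: the expectation identity on the tree
-/

set_option autoImplicit false
open scoped Classical
open Filter Topology MeasureTheory ProbabilityTheory
open scoped ENNReal NNReal BigOperators

namespace Pool.Agent.W369.PM.Id
open Pool.Agent.W845.PM

noncomputable section

def H1 (a r : ℝ≥0∞) : ℝ≥0∞ := if a ≠ ⊤ ∧ r ≠ ⊤ then a / (1 + a + r) else 0

def H2 (a r : ℝ≥0∞) : ℝ≥0∞ := if a ≠ 0 ∧ r ≠ 0 then a / (a + r) else 0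

def H3 (a r : ℝ≥0∞) : ℝ≥0∞ := if a ≠ 0 ∧ r = 0 then 1 else 0

def H0 (a r : ℝ≥0∞) : ℝ≥0∞ := a / (a + r)

theorem inv_div (a b : ℝ≥0∞) (h0 : a ≠ 0) (ht : a ≠ ⊤) : a⁻¹ / (a⁻¹ + b) = (1 + a * b)⁻¹ := by
  have h1 : a⁻¹ + b = a⁻¹ * (1 + a * b) := by
    rw [mul_add, mul_one, ← mul_assoc, ENNReal.inv_mul_cancel h0 ht, one_mul]
  rw [h1, div_eq_mul_inv, ENNReal.mul_inv (Or.inl (ENNReal.inv_ne_zero.2 ht))
    (Or.inl (ENNReal.inv_ne_top.2 h0)), ← mul_assoc,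
    ENNReal.mul_inv_cancel (ENNReal.inv_ne_zero.2 ht) (ENNReal.inv_ne_top.2 h0), one_mul]

theorem h12 (x S R : ℝ≥0∞) (hS : S ≠ ⊤) (hx : x = (1 + R)⁻¹) : H1 S⁻¹ R = H2 x S := by
  unfold H1 H2
  by_cases hS0 : S = 0
  · rw [hS0]
    simp
  by_cases hR : R = ⊤
  · rw [hx, hR]
    simp
  have h1R0 : (1 : ℝ≥0∞) + R ≠ 0 := by
    intro h
    rw [add_eq_zero] at h
    exact one_ne_zero h.1
  have h1Rt : (1 : ℝ≥0∞) + R ≠ ⊤ := ENNReal.add_ne_top.2 ⟨ENNReal.one_ne_top, hR⟩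
  rw [if_pos ⟨ENNReal.inv_ne_top.2 hS0, hR⟩, if_pos ⟨by rw [hx]; exact ENNReal.inv_ne_zero.2 h1Rt, hS0⟩,
    hx, inv_div _ _ h1R0 h1Rt]
  have h3 : 1 + S⁻¹ + R = S⁻¹ + (1 + R) := by ring
  rw [h3, inv_div _ _ hS0 hS, mul_comm]

theorem h023 (a r : ℝ≥0∞) (ha : a ≠ ⊤) : H0 a r = H2 a r + H3 a r := by
  unfold H0 H2 H3
  by_cases ha0 : a = 0
  · simp [ha0]
  by_cases hr : r = 0
  · rw [hr]
    simp [ha0, ENNReal.div_self ha0 ha]
  · simp [ha0, hr]

theorem pt1 (m : ℕ) (y : ℕ → ℝ≥0∞) (x : ℝ≥0∞) (hx : x = (1 + ∑ i ∈ Finset.range m, y i)⁻¹) :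
    x + ∑ i ∈ Finset.range m, H1 (y i) (∑ j ∈ (Finset.range m).erase i, y j) =
      if x ≠ 0 then 1 else 0 := by
  obtain ⟨R, hR⟩ : ∃ R, R = ∑ i ∈ Finset.range m, y i := ⟨_, rfl⟩
  rw [← hR] at hx
  have hsplit : ∀ i ∈ Finset.range m, y i + ∑ j ∈ (Finset.range m).erase i, y j = R := by
    intro i hi
    rw [Finset.add_sum_erase _ _ hi, hR]
  by_cases hRt : R = ⊤
  · have hx0 : x = 0 := by
      rw [hx, hRt]
      simp
    rw [if_neg (fun h => h hx0), hx0, zero_add]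
    refine Finset.sum_eq_zero fun i hi => ?_
    unfold H1
    rw [if_neg]
    intro h
    have h1 := hsplit i hi
    rw [hRt] at h1
    exact (ENNReal.add_ne_top.2 h) h1
  · have h1R0 : (1 : ℝ≥0∞) + R ≠ 0 := by
      intro h
      rw [add_eq_zero] at h
      exact one_ne_zero h.1
    have h1Rt : (1 : ℝ≥0∞) + R ≠ ⊤ := ENNReal.add_ne_top.2 ⟨ENNReal.one_ne_top, hRt⟩
    have hx0 : x ≠ 0 := by
      rw [hx]
      exact ENNReal.inv_ne_zero.2 h1Rt
    rw [if_pos hx0]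
    have h1 : ∀ i ∈ Finset.range m, H1 (y i) (∑ j ∈ (Finset.range m).erase i, y j) =
        y i * (1 + R)⁻¹ := by
      intro i hi
      have h2 := hsplit i hi
      have h3 : y i ≠ ⊤ ∧ ∑ j ∈ (Finset.range m).erase i, y j ≠ ⊤ := by
        rw [← ENNReal.add_ne_top, h2]
        exact hRt
      unfold H1
      rw [if_pos h3, add_assoc, h2, div_eq_mul_inv]
    rw [Finset.sum_congr rfl h1, ← Finset.sum_mul, ← hR, hx]
    have h2 : (1 + R)⁻¹ + R * (1 + R)⁻¹ = (1 + R) * (1 + R)⁻¹ := by ring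
    rw [h2, ENNReal.mul_inv_cancel h1R0 h1Rt]

theorem pt0 (m : ℕ) (x : ℕ → ℝ≥0∞) (hx : ∑ i ∈ Finset.range m, x i ≠ ⊤) :
    ∑ i ∈ Finset.range m, H0 (x i) (∑ j ∈ (Finset.range m).erase i, x j) =
      if ∑ i ∈ Finset.range m, x i ≠ 0 then 1 else 0 := by
  have h1 : ∀ i ∈ Finset.range m, H0 (x i) (∑ j ∈ (Finset.range m).erase i, x j) =
      x i * (∑ i ∈ Finset.range m, x i)⁻¹ := by
    intro i hi
    unfold H0
    rw [Finset.add_sum_erase _ _ hi, div_eq_mul_inv]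
  rw [Finset.sum_congr rfl h1, ← Finset.sum_mul]
  by_cases h0 : ∑ i ∈ Finset.range m, x i = 0
  · rw [if_neg (fun h => h h0), h0, zero_mul]
  · rw [if_pos h0, ENNReal.mul_inv_cancel h0 hx]

theorem meas_H1 : Measurable (Function.uncurry H1) := by
  unfold Function.uncurry H1
  refine Measurable.ite ?_ (by fun_prop) measurable_const
  exact ((measurable_fst (measurableSet_singleton ⊤)).compl).inter
    ((measurable_snd (measurableSet_singleton ⊤)).compl)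

theorem meas_H2 : Measurable (Function.uncurry H2) := by
  unfold Function.uncurry H2
  refine Measurable.ite ?_ (by fun_prop) measurable_const
  exact ((measurable_fst (measurableSet_singleton 0)).compl).inter
    ((measurable_snd (measurableSet_singleton 0)).compl)

theorem meas_H3 : Measurable (Function.uncurry H3) := by
  unfold Function.uncurry H3
  refine Measurable.ite ?_ measurable_const measurable_const
  exact ((measurable_fst (measurableSet_singleton 0)).compl).inter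
    (measurable_snd (measurableSet_singleton 0))

theorem meas_H0 : Measurable (Function.uncurry H0) := by
  unfold Function.uncurry H0
  fun_prop

theorem idt : S_TM → S_MK → S_TEQ → S_ID := by
  intro htm hmk hteq c x t hfix ht
  obtain ⟨hxm, hx1, hxr⟩ := hfix
  have hxt : ∀ ω, x ω ≠ ⊤ := fun ω => ne_top_of_le_ne_top ENNReal.one_ne_top (hx1 ω)
  obtain ⟨S, hS⟩ : ∃ S : Om → ℝ≥0∞, S = fun ω => ∑ j ∈ Finset.range (ω []), x (sh j ω) := ⟨_, rfl⟩
  have hSm : Measurable S := by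
    rw [hS]
    exact htm.1 x hxm
  have hSt : ∀ ω, S ω ≠ ⊤ := by
    intro ω
    rw [hS]
    exact ENNReal.sum_ne_top.2 fun i _ => hxt _
  obtain ⟨R, hR⟩ : ∃ R : Om → ℝ≥0∞, R = fun ω => ∑ j ∈ Finset.range (ω []), (S (sh j ω))⁻¹ := ⟨_, rfl⟩
  have hxR : ∀ ω, x ω = (1 + R ω)⁻¹ := by
    intro ω
    rw [hR]
    simp only [hS]
    exact hxr ω
  have hSi : Measurable fun ω => (S ω)⁻¹ := hSm.inv
  have hmx : MeasurableSet {ω | x ω ≠ 0} := (hxm (measurableSet_singleton 0)).compl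
  have hmS' : MeasurableSet {ω | S ω ≠ 0} := (hSm (measurableSet_singleton 0)).compl
  have hmS : MeasurableSet {ω | S ω = 0} := hSm (measurableSet_singleton 0)
  -- the double integral
  obtain ⟨I, hI⟩ : ∃ I : ℝ≥0∞, I = ∫⁻ ω', ∫⁻ ω, H2 (x ω) (S ω') ∂(Pm c) ∂(Pm c) := ⟨_, rfl⟩
  -- (A)
  have hA : ∫⁻ ω, x ω ∂(Pm c) + (c : ℝ≥0∞) * I = (Pm c) {ω | x ω ≠ 0} := by
    have h1 := hmk c (fun ω => (S ω)⁻¹) H1 hSi meas_H1
    have h2 : ∫⁻ ω', ∫⁻ ω, H1 ((S ω')⁻¹) (∑ j ∈ Finset.range (ω []), (S (sh j ω))⁻¹) ∂(Pm c) ∂(Pm c) = I := by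
      rw [hI]
      refine lintegral_congr fun ω' => lintegral_congr fun ω => ?_
      have h3 : ∑ j ∈ Finset.range (ω []), (S (sh j ω))⁻¹ = R ω := by rw [hR]
      rw [h3]
      exact h12 (x ω) (S ω') (R ω) (hSt ω') (hxR ω)
    rw [h2] at h1
    rw [← h1, ← lintegral_add_left hxm]
    have h3 : ∀ ω, x ω + ∑ i ∈ Finset.range (ω []), H1 ((S (sh i ω))⁻¹)
        (∑ j ∈ (Finset.range (ω [])).erase i, (S (sh j ω))⁻¹) =
        ({ω | x ω ≠ 0} : Set Om).indicator (fun _ => 1) ω := by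
      intro ω
      rw [pt1 (ω []) (fun i => (S (sh i ω))⁻¹) (x ω) (by rw [hxR ω, hR])]
      rw [Set.indicator_apply]
      rfl
    rw [lintegral_congr h3, lintegral_indicator_const hmx, one_mul]
  -- (B)
  have hB : (c : ℝ≥0∞) * I + (c : ℝ≥0∞) * ((Pm c) {ω | x ω ≠ 0} * (Pm c) {ω | S ω = 0}) =
      (Pm c) {ω | S ω ≠ 0} := by
    have h1 := hmk c x H0 hxm meas_H0
    have h3 : ∀ ω, ∑ i ∈ Finset.range (ω []), H0 (x (sh i ω))
        (∑ j ∈ (Finset.range (ω [])).erase i, x (sh j ω)) =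
        ({ω | S ω ≠ 0} : Set Om).indicator (fun _ => 1) ω := by
      intro ω
      rw [pt0 (ω []) (fun i => x (sh i ω)) (by
        have := hSt ω
        rw [hS] at this
        exact this)]
      rw [Set.indicator_apply, hS]
      rfl
    rw [lintegral_congr h3, lintegral_indicator_const hmS', one_mul] at h1
    rw [h1, ← mul_add]
    congr 1
    have h4 : ∀ ω' ω, H0 (x ω') (∑ j ∈ Finset.range (ω []), x (sh j ω)) =
        H2 (x ω') (S ω) + H3 (x ω') (S ω) := by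
      intro ω' ω
      rw [hS]
      exact h023 _ _ (hxt ω')
    have hm2 : Measurable fun p : Om × Om => H2 (x p.1) (S p.2) :=
      meas_H2.comp ((hxm.comp measurable_fst).prodMk (hSm.comp measurable_snd))
    have hm3 : Measurable fun p : Om × Om => H3 (x p.1) (S p.2) :=
      meas_H3.comp ((hxm.comp measurable_fst).prodMk (hSm.comp measurable_snd))
    have h5 : ∫⁻ ω', ∫⁻ ω, H0 (x ω') (∑ j ∈ Finset.range (ω []), x (sh j ω)) ∂(Pm c) ∂(Pm c) =
        ∫⁻ ω', ∫⁻ ω, H2 (x ω') (S ω) ∂(Pm c) ∂(Pm c) + ∫⁻ ω', ∫⁻ ω, H3 (x ω') (S ω) ∂(Pm c) ∂(Pm c) := by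
      have e1 : ∀ ω', ∫⁻ ω, H0 (x ω') (∑ j ∈ Finset.range (ω []), x (sh j ω)) ∂(Pm c) =
          ∫⁻ ω, H2 (x ω') (S ω) ∂(Pm c) + ∫⁻ ω, H3 (x ω') (S ω) ∂(Pm c) := by
        intro ω'
        have e2 : Measurable fun ω => H2 (x ω') (S ω) := hm2.comp measurable_prodMk_left
        rw [← lintegral_add_left e2]
        exact lintegral_congr fun ω => h4 ω' ω
      rw [lintegral_congr e1]
      have e3 : Measurable fun ω' => ∫⁻ ω, H2 (x ω') (S ω) ∂(Pm c) := hm2.lintegral_prod_right'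
      exact lintegral_add_left e3 _
    have h6 : ∫⁻ ω', ∫⁻ ω, H2 (x ω') (S ω) ∂(Pm c) ∂(Pm c) = I := by
      rw [hI, lintegral_lintegral_swap]
      exact hm2.aemeasurable
    have h7 : ∫⁻ ω', ∫⁻ ω, H3 (x ω') (S ω) ∂(Pm c) ∂(Pm c) =
        (Pm c) {ω | x ω ≠ 0} * (Pm c) {ω | S ω = 0} := by
      have h8 : ∀ ω', ∫⁻ ω, H3 (x ω') (S ω) ∂(Pm c) =
          ({ω | x ω ≠ 0} : Set Om).indicator (fun _ => (Pm c) {ω | S ω = 0}) ω' := by
        intro ω'
        by_cases h9 : x ω' ≠ 0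
        · have h10 : ∀ ω, H3 (x ω') (S ω) = ({ω | S ω = 0} : Set Om).indicator (fun _ => 1) ω := by
            intro ω
            unfold H3
            by_cases h11 : S ω = 0
            · rw [if_pos ⟨h9, h11⟩, Set.indicator_of_mem (show ω ∈ {ω | S ω = 0} from h11)]
            · rw [if_neg (fun h => h11 h.2),
                Set.indicator_of_notMem (show ω ∉ {ω | S ω = 0} from h11)]
          rw [Set.indicator_of_mem (show ω' ∈ {ω | x ω ≠ 0} from h9), lintegral_congr h10,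
            lintegral_indicator_const hmS, one_mul]
        · rw [Set.indicator_of_notMem (show ω' ∉ {ω | x ω ≠ 0} from h9)]
          have h10 : ∀ ω, H3 (x ω') (S ω) = 0 := by
            intro ω
            unfold H3
            rw [if_neg (fun h => h9 h.1)]
          rw [lintegral_congr h10, lintegral_zero]
      rw [lintegral_congr h8, lintegral_indicator_const hmx,
        mul_comm]
    rw [h5, h6, h7]
  -- conclusion
  have hxfin : ∫⁻ ω, x ω ∂(Pm c) ≠ ⊤ := by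
    refine ne_top_of_le_ne_top ENNReal.one_ne_top ?_
    calc ∫⁻ ω, x ω ∂(Pm c) ≤ ∫⁻ _ : Om, 1 ∂(Pm c) := lintegral_mono hx1
      _ = 1 := by simp
  have hIfin : (c : ℝ≥0∞) * I ≠ ⊤ := by
    intro h
    rw [h, add_top] at hA
    exact measure_ne_top (Pm c) _ hA.symm
  obtain ⟨s, hs⟩ : ∃ s, s = ((Pm c) {ω | ∑ j ∈ Finset.range (ω []), x (sh j ω) = 0}).toReal := ⟨_, rfl⟩
  have hse := (hteq c x t s ⟨hxm, hx1, hxr⟩ ht hs).1
  have hs' : s = ((Pm c) {ω | S ω = 0}).toReal := by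
    rw [hs, hS]
  have hAr : (∫⁻ ω, x ω ∂(Pm c)).toReal + ((c : ℝ≥0∞) * I).toReal = t := by
    rw [ht, ← hA, ENNReal.toReal_add hxfin hIfin]
  have hcompl : ((Pm c) {ω | S ω ≠ 0}).toReal = 1 - s := by
    have h1 : {ω | S ω ≠ 0} = {ω | S ω = 0}ᶜ := rfl
    rw [h1, prob_compl_eq_one_sub hmS, ENNReal.toReal_sub_of_le prob_le_one
      ENNReal.one_ne_top, ENNReal.toReal_one, hs']
  have hBr : ((c : ℝ≥0∞) * I).toReal + (c : ℝ) * (t * s) = 1 - s := by
    rw [← hcompl, ← hB, ENNReal.toReal_add hIfin (ENNReal.mul_ne_top ENNReal.coe_ne_top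
      (ENNReal.mul_ne_top (measure_ne_top _ _) (measure_ne_top _ _))), ENNReal.toReal_mul,
      ENNReal.toReal_mul, ENNReal.toReal_mul, ENNReal.coe_toReal, ht, hs']
  have hint : ∫ ω, (x ω).toReal ∂(Pm c) = (∫⁻ ω, x ω ∂(Pm c)).toReal :=
    integral_toReal hxm.aemeasurable (Filter.Eventually.of_forall fun ω => (hxt ω).lt_top)
  rw [hint, val, ← hse]
  linarith

end

end Pool.Agent.W369.PM.Id
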